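import Mathlib
import Pool.Agent.Helper82.ZS.Fr

/-!
# A central element of order three

If a finite group whose commutative subgroups are cyclic has a central element `s` of order three,
then the transfer to a Sylow `3`-subgroup maps `s` to a nontrivial element.
-/

set_option autoImplicit false

namespace Pool.Agent.Helper45.ZS

open Pool.Agent.Helper82.EB Pool.Agent.Helper82.ZS

open scoped IsMulCommutative in
lemma transfer_central {G : Type*} [Group G] [Finite G] (H : Subgroup G) [IsMulCommutative H]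
    (s : G) (hcen : ∀ g : G, g * s = s * g) (hne : s ^ H.index ≠ 1) :
    ∃ N : Subgroup G, ∃ _ : N.Normal, N ≠ ⊤ ∧ Group.IsSolvable (G ⧸ N) := by
  have key : ∀ (k : ℕ) (g₀ : G), g₀⁻¹ * s ^ k * g₀ ∈ H → g₀⁻¹ * s ^ k * g₀ = s ^ k := by
    intro k g₀ _
    have h1 : Commute g₀ (s ^ k) := (Commute.pow_right (hcen g₀) k)
    rw [mul_assoc, ← h1.eq, inv_mul_cancel_left]
  have hV := MonoidHom.transfer_eq_pow (MonoidHom.id H) s key
  refine ⟨(MonoidHom.transfer (MonoidHom.id H)).ker, inferInstance, ?_, ?_⟩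
  · intro h
    have h1 : s ∈ (MonoidHom.transfer (MonoidHom.id H)).ker := by
      rw [h]; exact Subgroup.mem_top s
    rw [MonoidHom.mem_ker, hV, MonoidHom.id_apply] at h1
    exact hne (congrArg Subtype.val h1)
  · haveI : Group.IsSolvable H := inferInstance
    exact Group.isSolvable_of_isSolvable_injective
      (QuotientGroup.kerLift_injective (MonoidHom.transfer (MonoidHom.id H)))

/-- (B) -/
theorem s_B : S_B := by
  intro G _ _ hAC s hs3 hs1 hcen
  haveI : Fact (Nat.Prime 3) := ⟨Nat.prime_three⟩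
  have hos : orderOf s = 3 := orderOf_eq_prime hs3 hs1
  have hzp : IsPGroup 3 (Subgroup.zpowers s) :=
    IsPGroup.of_card (n := 1) (by rw [Nat.card_zpowers, hos, pow_one])
  obtain ⟨P, hP⟩ := hzp.exists_le_sylow
  have hcyc : IsCyclic P := by
    by_contra hnc
    obtain ⟨i, hi, x, hx, hq⟩ := quat_of_noncyclic hAC 3 P.1 P.2 hnc
    obtain ⟨k, hk⟩ := (IsPGroup.iff_orderOf.mp P.2) ⟨i, hi⟩
    rw [Subgroup.orderOf_mk] at hk
    have h4 : orderOf i ∣ 4 := orderOf_dvd_of_pow_eq_one hq.2.1
    rw [hk] at h4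
    have hk0 : k = 0 := by
      by_contra hk0
      have h3 : 3 ∣ 4 := (dvd_pow_self 3 hk0).trans h4
      omega
    rw [hk0, pow_zero, orderOf_eq_one_iff] at hk
    exact hq.1 (by rw [hk, one_pow])
  haveI : IsMulCommutative P.1 := ⟨⟨fun a b => by
    obtain ⟨g, hg⟩ := hcyc.exists_generator
    obtain ⟨m, rfl⟩ := hg a
    obtain ⟨n, rfl⟩ := hg b
    exact ((Commute.refl g).zpow_zpow m n).eq⟩⟩
  refine transfer_central P.1 s hcen ?_
  intro h
  have h1 : orderOf s ∣ P.1.index := orderOf_dvd_of_pow_eq_one h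
  rw [hos] at h1
  exact P.not_dvd_index h1

end Pool.Agent.Helper45.ZS
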