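import Mathlib
import Pool.Agent.Helper82.ZS.Fr2

/-!
# Counting the elements of order three
-/

set_option autoImplicit false

namespace Pool.Agent.Helper45.ZS

open Pool.Agent.Helper82.ZS

/-- `h_i h_n h_i⁻¹ = h_(tb i n)` for the points `h_0, .., h_3` of a line -/
def tb : Fin 4 → Fin 4 → Fin 4 := ![![0, 3, 1, 2], ![2, 1, 3, 0], ![3, 0, 2, 1], ![1, 2, 0, 3]]

lemma one_mem_of : ∀ s : Finset (Fin 4), s.card = 2 → 0 ∉ s → (2 ∉ s ∨ 3 ∉ s) → 1 ∈ s := by
  decide
lemma tb_self : ∀ k, tb k k = k := by decide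
lemma tb_inj : ∀ k m n, tb k m = tb k n → m = n := by decide
lemma tb_surj : ∀ k n, ∃ m, tb k m = n := by decide
lemma tb_ne : ∀ i j, j ≠ i → tb i j ≠ i ∧ tb i j ≠ j := by decide
lemma tb_cases : ∀ i j k l : Fin 4, i ≠ j → i ≠ k → i ≠ l → j ≠ k → j ≠ l → k ≠ l →
    (tb k i = j ∧ tb k l = i) ∨ (tb k j = i ∧ tb k i = l) := by decide
lemma fourth : ∀ i j k : Fin 4, i ≠ j → i ≠ k → j ≠ k → ∃ l, i ≠ l ∧ j ≠ l ∧ k ≠ l := by decide
lemma tb_two : ∀ i j k : Fin 4, i ≠ j → i ≠ k → j ≠ k → tb i j = k ∨ tb i k = j := by decide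

section

variable {G : Type*} [Group G]

lemma O3_inv {x : G} (h : O3 x) : O3 x⁻¹ := ⟨by rw [inv_pow, h.1, inv_one], inv_ne_one.mpr h.2⟩

lemma O3_conj {x : G} (h : O3 x) (g : G) : O3 (g * x * g⁻¹) := by
  refine ⟨by rw [conj_pow, h.1, mul_one, mul_inv_cancel], ?_⟩
  intro h'
  exact h.2 (by simpa using h')

lemma O3_conj' {x : G} (h : O3 x) (g : G) : O3 (g⁻¹ * x * g) := by
  have := O3_conj h g⁻¹
  rwa [inv_inv] at this

lemma ln_O3 {a b : G} (ha : O3 a) (hb : O3 b) (n : Fin 4) : O3 (ln a b n) := by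
  fin_cases n
  · exact ha
  · exact hb
  · exact O3_conj' hb a
  · exact O3_conj hb a

lemma sq_eq_inv {x : G} (h : O3 x) : x * x = x⁻¹ := by
  rw [eq_inv_iff_mul_eq_one]
  have := h.1
  rwa [pow_succ, pow_two] at this

/-- conjugation by the points of a line -/
lemma ln_conj {a b : G} (ha : O3 a) (hbr : a * b * a = b * a * b) (i n : Fin 4) :
    ln a b i * ln a b n * (ln a b i)⁻¹ = ln a b (tb i n) := by
  have haa : a * a = a⁻¹ := sq_eq_inv ha
  have hA : ∀ n : Fin 4, a * ln a b n * a⁻¹ = ln a b (tb 0 n) := by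
    intro n
    fin_cases n
    · change a * a * a⁻¹ = a
      group
    · change a * b * a⁻¹ = a * b * a⁻¹
      rfl
    · change a * (a⁻¹ * b * a) * a⁻¹ = b
      group
    · change a * (a * b * a⁻¹) * a⁻¹ = a⁻¹ * b * a
      calc a * (a * b * a⁻¹) * a⁻¹ = (a * a) * b * (a * a)⁻¹ := by group
        _ = a⁻¹ * b * a := by rw [haa, inv_inv]
  have hB : ∀ n : Fin 4, b * ln a b n * b⁻¹ = ln a b (tb 1 n) := by
    have h1 : b * a * b⁻¹ = a⁻¹ * b * a := by
      calc b * a * b⁻¹ = a⁻¹ * (a * b * a) * b⁻¹ := by group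
        _ = a⁻¹ * (b * a * b) * b⁻¹ := by rw [hbr]
        _ = a⁻¹ * b * a := by group
    intro n
    fin_cases n
    · exact h1
    · change b * b * b⁻¹ = b
      group
    · change b * (a⁻¹ * b * a) * b⁻¹ = a * b * a⁻¹
      calc b * (a⁻¹ * b * a) * b⁻¹ = b * a⁻¹ * (b * a * b⁻¹) := by group
        _ = b * (a * a)⁻¹ * b * a := by rw [h1]; group
        _ = (b * a * b) * a := by rw [haa, inv_inv]
        _ = (a * b * a) * a := by rw [hbr]
        _ = a * b * (a * a) := by group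
        _ = a * b * a⁻¹ := by rw [haa]
    · change b * (a * b * a⁻¹) * b⁻¹ = a
      calc b * (a * b * a⁻¹) * b⁻¹ = (b * a * b) * a⁻¹ * b⁻¹ := by group
        _ = (a * b * a) * a⁻¹ * b⁻¹ := by rw [hbr]
        _ = a := by group
  have hA' : ∀ n : Fin 4, a⁻¹ * ln a b (tb 0 n) * a = ln a b n := by
    intro n
    rw [← hA n]; group
  fin_cases i
  · exact hA n
  · exact hB n
  · change (a⁻¹ * b * a) * ln a b n * (a⁻¹ * b * a)⁻¹ = ln a b (tb 2 n)
    obtain ⟨m, hm⟩ : ∃ m, tb 0 m = tb 1 (tb 0 n) := tb_surj 0 _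
    have hmn : m = tb 2 n := by
      revert hm
      revert m n
      decide
    calc (a⁻¹ * b * a) * ln a b n * (a⁻¹ * b * a)⁻¹
        = a⁻¹ * (b * (a * ln a b n * a⁻¹) * b⁻¹) * a := by group
      _ = a⁻¹ * ln a b (tb 0 m) * a := by rw [hA, hB, hm]
      _ = ln a b (tb 2 n) := by rw [hA', hmn]
  · change (a * b * a⁻¹) * ln a b n * (a * b * a⁻¹)⁻¹ = ln a b (tb 3 n)
    obtain ⟨m, hm⟩ : ∃ m, tb 0 m = n := tb_surj 0 _
    have hmn : tb 0 (tb 1 m) = tb 3 n := by
      revert hm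
      revert m n
      decide
    calc (a * b * a⁻¹) * ln a b n * (a * b * a⁻¹)⁻¹
        = a * (b * (a⁻¹ * ln a b (tb 0 m) * a) * b⁻¹) * a⁻¹ := by rw [hm]; group
      _ = ln a b (tb 3 n) := by rw [hA', hB, hA, hmn]

end

/-- the hypotheses on the line through `a` and `b` -/
structure IsLn (G : Type) [Group G] (Adj : G → G → Prop) (a b : G) : Prop where
  geo : Geo G Adj
  ha : O3 a
  hb : O3 b
  adj : Adj a b
  br : a * b * a = b * a * b

/-- the neighbours of `c` on the line are `h_i` and `h_j` -/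
def Nb {G : Type} [Group G] (Adj : G → G → Prop) (a b c : G) (i j : Fin 4) : Prop :=
  i ≠ j ∧ ∀ n, Adj c (ln a b n) ↔ (n = i ∨ n = j)

section

variable {G : Type} [Group G] {Adj : G → G → Prop} {a b : G}

lemma adj_inv_right (hG : Geo G Adj) {x y : G} (hx : O3 x) (hy : O3 y) :
    Adj x y⁻¹ ↔ Adj x y :=
  ⟨fun h => by simpa using hG.inv x y⁻¹ hx (O3_inv hy) h, hG.inv x y hx hy⟩

lemma adj_comm (hG : Geo G Adj) {x y : G} (hx : O3 x) (hy : O3 y) : Adj x y ↔ Adj y x :=
  ⟨hG.symm x y hx hy, hG.symm y x hy hx⟩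

lemma adj_inv_left (hG : Geo G Adj) {x y : G} (hx : O3 x) (hy : O3 y) :
    Adj x⁻¹ y ↔ Adj x y := by
  rw [adj_comm hG (O3_inv hx) hy, adj_inv_right hG hy hx, adj_comm hG hy hx]

lemma adj_conj (hG : Geo G Adj) {x y : G} (hx : O3 x) (hy : O3 y) (g : G) :
    Adj (g * x * g⁻¹) (g * y * g⁻¹) ↔ Adj x y := by
  refine ⟨fun h => ?_, hG.conj g x y hx hy⟩
  have h1 := hG.conj g⁻¹ _ _ (O3_conj hx g) (O3_conj hy g) h
  have h2 : ∀ t : G, g⁻¹ * (g * t * g⁻¹) * g⁻¹⁻¹ = t := fun t => by group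
  rwa [h2, h2] at h1

lemma Nb.symm {c : G} {i j : Fin 4} (h : Nb Adj a b c i j) : Nb Adj a b c j i :=
  ⟨h.1.symm, fun n => by rw [h.2 n, or_comm]⟩

lemma Nb.inv (hL : IsLn G Adj a b) {c : G} (hc : O3 c) {i j : Fin 4} (h : Nb Adj a b c i j) :
    Nb Adj a b c⁻¹ i j :=
  ⟨h.1, fun n => by rw [adj_inv_left hL.geo hc (ln_O3 hL.ha hL.hb n), h.2 n]⟩

lemma Nb.conj (hL : IsLn G Adj a b) {c : G} (hc : O3 c) {i j : Fin 4} (h : Nb Adj a b c i j)
    (k : Fin 4) : Nb Adj a b (ln a b k * c * (ln a b k)⁻¹) (tb k i) (tb k j) := by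
  refine ⟨fun h' => h.1 (tb_inj _ _ _ h'), fun n => ?_⟩
  obtain ⟨m, rfl⟩ := tb_surj k n
  rw [← ln_conj hL.ha hL.br k m, adj_conj hL.geo hc (ln_O3 hL.ha hL.hb m), h.2 m]
  constructor
  · rintro (rfl | rfl)
    · exact Or.inl rfl
    · exact Or.inr rfl
  · rintro (h' | h')
    · exact Or.inl (tb_inj _ _ _ h')
    · exact Or.inr (tb_inj _ _ _ h')

lemma Nb.conj' (hL : IsLn G Adj a b) {c : G} (hc : O3 c) {i j : Fin 4} {k : Fin 4}
    (h : Nb Adj a b c (tb k i) (tb k j)) :
    Nb Adj a b ((ln a b k)⁻¹ * c * ln a b k) i j := by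
  refine ⟨fun h' => h.1 (by rw [h']), fun m => ?_⟩
  have h1 := adj_conj hL.geo (O3_conj' hc (ln a b k)) (ln_O3 hL.ha hL.hb m) (ln a b k)
  rw [ln_conj hL.ha hL.br k m] at h1
  have h2 : ln a b k * ((ln a b k)⁻¹ * c * ln a b k) * (ln a b k)⁻¹ = c := by group
  rw [h2] at h1
  rw [← h1, h.2]
  constructor
  · rintro (h' | h')
    · exact Or.inl (tb_inj _ _ _ h')
    · exact Or.inr (tb_inj _ _ _ h')
  · rintro (rfl | rfl)
    · exact Or.inl rfl
    · exact Or.inr rfl

lemma exists_Nb (hL : IsLn G Adj a b) {c : G} (hc : O3 c) (ho : Off a b c) :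
    ∃ i j, Nb Adj a b c i j := by
  obtain ⟨s, hs, hs'⟩ := hL.geo.two a b c hL.ha hL.hb hL.adj hL.br hc ho
  obtain ⟨i, j, hij, rfl⟩ := Finset.card_eq_two.mp hs
  refine ⟨i, j, hij, fun n => ?_⟩
  rw [← hs' n, Finset.mem_insert, Finset.mem_singleton]

lemma Off_inv {c : G} (ho : Off a b c) : Off a b c⁻¹ := by
  intro n
  refine ⟨fun h => (ho n).2 ?_, fun h => (ho n).1 ?_⟩
  · rw [← h, inv_inv]
  · exact inv_injective h

lemma Off_conj (hL : IsLn G Adj a b) {c : G} (ho : Off a b c) (k : Fin 4) :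
    Off a b (ln a b k * c * (ln a b k)⁻¹) := by
  intro n
  obtain ⟨m, rfl⟩ := tb_surj k n
  rw [← ln_conj hL.ha hL.br k m]
  refine ⟨fun h => (ho m).1 ?_, fun h => (ho m).2 ?_⟩
  · exact mul_left_cancel (mul_right_cancel h)
  · have h2 : (ln a b k * ln a b m * (ln a b k)⁻¹)⁻¹
        = ln a b k * (ln a b m)⁻¹ * (ln a b k)⁻¹ := by group
    rw [h2] at h
    exact mul_left_cancel (mul_right_cancel h)

lemma Off_conj' (hL : IsLn G Adj a b) {c : G} (ho : Off a b c) (k : Fin 4) :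
    Off a b ((ln a b k)⁻¹ * c * ln a b k) := by
  intro n
  have h2 : c = ln a b k * ((ln a b k)⁻¹ * c * ln a b k) * (ln a b k)⁻¹ := by group
  refine ⟨fun h => (ho (tb k n)).1 ?_, fun h => (ho (tb k n)).2 ?_⟩
  · rw [h2, h, ln_conj hL.ha hL.br k n]
  · rw [h2, h, ← ln_conj hL.ha hL.br k n]; group

/-- two elements with exactly one common neighbour on the line are adjacent (braid form) -/
lemma step1' (hL : IsLn G Adj a b) {c p : G} (hc : O3 c) (hp : O3 p) (hoc : Off a b c)
    (hop : Off a b p) {i j k : Fin 4} (hjk : j ≠ k) (hNc : Nb Adj a b c i j)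
    (hNp : Nb Adj a b p i k) (hbr : ln a b k * p * ln a b k = p * ln a b k * p) : Adj c p := by
  have hij := hNc.1
  have hik := hNp.1
  obtain ⟨l, hil, hjl, hkl⟩ := fourth i j k hij hik hjk
  have hx : O3 (ln a b k) := ln_O3 hL.ha hL.hb k
  have hpx : Adj p (ln a b k) := (hNp.2 k).mpr (Or.inr rfl)
  have hxp : Adj (ln a b k) p := hL.geo.symm _ _ hp hx hpx
  have hcx : ¬ Adj c (ln a b k) := by
    rw [hNc.2 k]
    rintro (h | h)
    · exact hik h.symm
    · exact hjk h.symm
  -- the two conjugates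
  have h2 : Adj ((ln a b k)⁻¹ * p * ln a b k) (ln a b k) := by
    have h1 := adj_conj hL.geo (O3_conj' hp (ln a b k)) hx (ln a b k)
    have h3 : ln a b k * ((ln a b k)⁻¹ * p * ln a b k) * (ln a b k)⁻¹ = p := by group
    have h4 : ln a b k * ln a b k * (ln a b k)⁻¹ = ln a b k := by group
    rw [h3, h4] at h1
    exact h1.mp hpx
  have h3 : Adj (ln a b k * p * (ln a b k)⁻¹) (ln a b k) := by
    have h1 := adj_conj hL.geo hp hx (ln a b k)
    have h4 : ln a b k * ln a b k * (ln a b k)⁻¹ = ln a b k := by group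
    rw [h4] at h1
    exact h1.mpr hpx
  have hne : ∀ y : G, O3 y → Adj y (ln a b k) → c ≠ y ∧ c ≠ y⁻¹ := by
    intro y hy hya
    refine ⟨fun h => hcx (h ▸ hya), fun h => hcx ?_⟩
    rw [h, adj_inv_left hL.geo hy hx]
    exact hya
  have hoff : Off (ln a b k) p c := by
    intro n
    fin_cases n
    · exact hoc k
    · exact hne p hp hpx
    · exact hne _ (O3_conj' hp _) h2
    · exact hne _ (O3_conj hp _) h3
  obtain ⟨s, hs, hs'⟩ := hL.geo.two (ln a b k) p c hx hp hxp hbr hc hoff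
  have h0 : (0 : Fin 4) ∉ s := by
    rw [hs' 0]; exact hcx
  -- opposite
  have hopp : ∀ v : G, O3 v → Off a b v → Nb Adj a b v l k → ¬ Adj c v := by
    intro v hv hov hNv
    refine hL.geo.opp a b c v hL.ha hL.hb hL.adj hL.br hc hoc hv hov ?_
    intro n h5 h6
    rw [hNc.2 n] at h5
    rw [hNv.2 n] at h6
    rcases h5 with rfl | rfl <;> rcases h6 with h6 | h6
    · exact hil h6
    · exact hik h6
    · exact hjl h6
    · exact hjk h6
  have key : (2 : Fin 4) ∉ s ∨ (3 : Fin 4) ∉ s := by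
    rcases tb_cases i j k l hij hik hil hjk hjl hkl with ⟨h5, h6⟩ | ⟨h5, h6⟩
    · left
      rw [hs' 2]
      refine hopp _ (O3_conj' hp _) (Off_conj' hL hop k) ?_
      refine Nb.conj' hL hp ?_
      rw [h6, tb_self]; exact hNp
    · right
      rw [hs' 3]
      refine hopp _ (O3_conj hp _) (Off_conj hL hop k) ?_
      have h7 := Nb.conj hL hp hNp k
      rwa [h6, tb_self] at h7
  have h1 : (1 : Fin 4) ∈ s := one_mem_of s hs h0 key
  exact (hs' 1).mp h1

/-- two elements with exactly one common neighbour on the line are adjacent -/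
lemma step1 (hL : IsLn G Adj a b) {c p : G} (hc : O3 c) (hp : O3 p) (hoc : Off a b c)
    (hop : Off a b p) {i j k : Fin 4} (hjk : j ≠ k) (hNc : Nb Adj a b c i j)
    (hNp : Nb Adj a b p i k) : Adj c p := by
  have hx : O3 (ln a b k) := ln_O3 hL.ha hL.hb k
  have hpx : Adj p (ln a b k) := (hNp.2 k).mpr (Or.inr rfl)
  have hxp : Adj (ln a b k) p := hL.geo.symm _ _ hp hx hpx
  rcases hL.geo.braid _ _ hx hp hxp with h | h
  · exact step1' hL hc hp hoc hop hjk hNc hNp h
  · have h1 := step1' hL hc (O3_inv hp) hoc (Off_inv hop) hjk hNc (hNp.inv hL hp) h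
    rwa [adj_inv_right hL.geo hc hp] at h1

lemma step2' (hL : IsLn G Adj a b) {c d : G} (hc : O3 c) (hd : O3 d) (hoc : Off a b c)
    (hod : Off a b d) {i j : Fin 4} (hNc : Nb Adj a b c i j) (hNd : Nb Adj a b d i j)
    (hbr : ln a b i * d * ln a b i = d * ln a b i * d) : c = d ∨ c = d⁻¹ := by
  by_contra hcon
  push Not at hcon
  have hij := hNc.1
  have hx : O3 (ln a b i) := ln_O3 hL.ha hL.hb i
  have hcx : Adj c (ln a b i) := (hNc.2 i).mpr (Or.inl rfl)
  have hdx : Adj d (ln a b i) := (hNd.2 i).mpr (Or.inl rfl)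
  have hxd : Adj (ln a b i) d := hL.geo.symm _ _ hd hx hdx
  obtain ⟨k, hk⟩ := tb_surj i j
  have hki : k ≠ i := by
    rintro rfl
    rw [tb_self] at hk
    exact hij hk
  have hkj : k ≠ j := by
    rintro rfl
    exact (tb_ne i k hij.symm).2 hk
  obtain ⟨hmi, hmj⟩ := tb_ne i j hij.symm
  have hN2 : Nb Adj a b ((ln a b i)⁻¹ * d * ln a b i) i k := by
    refine Nb.conj' hL hd ?_
    rw [tb_self, hk]; exact hNd
  have hN3 : Nb Adj a b (ln a b i * d * (ln a b i)⁻¹) i (tb i j) := by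
    have h7 := Nb.conj hL hd hNd i
    rwa [tb_self] at h7
  have hne : ∀ (y : G) (m : Fin 4), O3 y → m ≠ i → m ≠ j → Nb Adj a b y i m →
      c ≠ y ∧ c ≠ y⁻¹ := by
    intro y m hy hmi hmj hNy
    have h1 : ¬ Adj c (ln a b m) := by
      rw [hNc.2 m]; rintro (h | h)
      · exact hmi h
      · exact hmj h
    have h2 : Adj y (ln a b m) := (hNy.2 m).mpr (Or.inr rfl)
    refine ⟨fun h => h1 (h ▸ h2), fun h => h1 ?_⟩
    rw [h, adj_inv_left hL.geo hy (ln_O3 hL.ha hL.hb m)]
    exact h2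
  have hoff : Off (ln a b i) d c := by
    intro n
    fin_cases n
    · exact hoc i
    · exact hcon
    · exact hne _ k (O3_conj' hd _) hki hkj hN2
    · exact hne _ (tb i j) (O3_conj hd _) hmi hmj hN3
  obtain ⟨s, hs, hs'⟩ := hL.geo.two (ln a b i) d c hx hd hxd hbr hc hoff
  have h0 : (0 : Fin 4) ∈ s := (hs' 0).mpr hcx
  have h2 : (2 : Fin 4) ∈ s := (hs' 2).mpr
    (step1 hL hc (O3_conj' hd _) hoc (Off_conj' hL hod i) hkj.symm hNc hN2)
  have h3 : (3 : Fin 4) ∈ s := (hs' 3).mpr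
    (step1 hL hc (O3_conj hd _) hoc (Off_conj hL hod i) hmj.symm hNc hN3)
  have h4 : ({0, 2, 3} : Finset (Fin 4)) ⊆ s := by
    intro n hn
    simp only [Finset.mem_insert, Finset.mem_singleton] at hn
    rcases hn with rfl | rfl | rfl
    · exact h0
    · exact h2
    · exact h3
  have h5 := Finset.card_le_card h4
  rw [hs] at h5
  exact absurd h5 (by decide)

/-- elements off the line with the same neighbours on it are equal or inverse -/
lemma step2 (hL : IsLn G Adj a b) {c d : G} (hc : O3 c) (hd : O3 d) (hoc : Off a b c)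
    (hod : Off a b d) {i j : Fin 4} (hNc : Nb Adj a b c i j) (hNd : Nb Adj a b d i j) :
    c = d ∨ c = d⁻¹ := by
  have hx : O3 (ln a b i) := ln_O3 hL.ha hL.hb i
  have hdx : Adj d (ln a b i) := (hNd.2 i).mpr (Or.inl rfl)
  have hxd : Adj (ln a b i) d := hL.geo.symm _ _ hd hx hdx
  rcases hL.geo.braid _ _ hx hd hxd with h | h
  · exact step2' hL hc hd hoc hod hNc hNd h
  · have h1 := step2' hL hc (O3_inv hd) hoc (Off_inv hod) hNc (hNd.inv hL hd) h
    rw [inv_inv] at h1
    exact h1.symm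

lemma ln_mem (a b : G) (n : Fin 4) : ln a b n ∈ Subgroup.closure ({a, b} : Set G) := by
  have ha : a ∈ Subgroup.closure ({a, b} : Set G) := Subgroup.subset_closure (by simp)
  have hb : b ∈ Subgroup.closure ({a, b} : Set G) := Subgroup.subset_closure (by simp)
  fin_cases n
  · exact ha
  · exact hb
  · exact mul_mem (mul_mem (inv_mem ha) hb) ha
  · exact mul_mem (mul_mem ha hb) (inv_mem ha)

/-- moving one neighbour -/
lemma move (hL : IsLn G Adj a b) {c : G} (hc : O3 c) (hoc : Off a b c) {i j : Fin 4}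
    (hN : Nb Adj a b c i j) (k : Fin 4) (hk : i ≠ k) :
    ∃ t ∈ Subgroup.closure ({a, b} : Set G), Off a b (t * c * t⁻¹) ∧
      Nb Adj a b (t * c * t⁻¹) i k := by
  by_cases hjk : j = k
  · subst hjk
    exact ⟨1, one_mem _, by simpa using hoc, by simpa using hN⟩
  · rcases tb_two i j k hN.1 hk hjk with h | h
    · refine ⟨ln a b i, ln_mem a b i, Off_conj hL hoc i, ?_⟩
      have h7 := Nb.conj hL hc hN i
      rwa [tb_self, h] at h7
    · refine ⟨(ln a b i)⁻¹, inv_mem (ln_mem a b i), ?_, ?_⟩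
      · rw [inv_inv]; exact Off_conj' hL hoc i
      · rw [inv_inv]
        refine Nb.conj' hL hc ?_
        rw [tb_self, h]; exact hN

/-- every pair is the pair of neighbours of a conjugate of `c` -/
lemma move2 (hL : IsLn G Adj a b) {c : G} (hc : O3 c) (hoc : Off a b c) {i j : Fin 4}
    (hN : Nb Adj a b c i j) (p q : Fin 4) (hpq : p ≠ q) :
    ∃ t ∈ Subgroup.closure ({a, b} : Set G), Off a b (t * c * t⁻¹) ∧
      Nb Adj a b (t * c * t⁻¹) p q := by
  by_cases hip : i = p
  · subst hip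
    exact move hL hc hoc hN q hpq
  · obtain ⟨t, ht, ho, hN'⟩ := move hL hc hoc hN p hip
    obtain ⟨u, hu, ho', hN''⟩ := move hL (O3_conj hc t) ho hN'.symm q hpq
    refine ⟨u * t, mul_mem hu ht, ?_, ?_⟩
    · have h1 : u * t * c * (u * t)⁻¹ = u * (t * c * t⁻¹) * u⁻¹ := by group
      rw [h1]; exact ho'
    · have h1 : u * t * c * (u * t)⁻¹ = u * (t * c * t⁻¹) * u⁻¹ := by group
      rw [h1]; exact hN''

end

/-- (CNT) -/
theorem s_CNT : S_CNT := by
  classical
  intro G _ _ Adj hG a b ha hb hab hbr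
  have hL : IsLn G Adj a b := ⟨hG, ha, hb, hab, hbr⟩
  have hdich : ∀ x, ¬ Off a b x → ∃ n, x = ln a b n ∨ x = (ln a b n)⁻¹ := by
    intro x hx
    unfold Off at hx
    push Not at hx
    obtain ⟨n, hn⟩ := hx
    refine ⟨n, ?_⟩
    by_cases h : x = ln a b n
    · exact Or.inl h
    · exact Or.inr (hn h)
  refine ⟨?_, ?_⟩
  · -- the set of representatives
    let g : Fin 4 × Fin 4 → G := fun p =>
      if h : ∃ c, O3 c ∧ Off a b c ∧ Nb Adj a b c p.1 p.2 then Classical.choose h else 1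
    let S : Finset (Fin 4 × Fin 4) := Finset.univ.filter fun p => p.1 < p.2
    have hS : S.card = 6 := by decide
    refine ⟨((Finset.univ.image (ln a b)) ∪ (Finset.univ.image fun n => (ln a b n)⁻¹)) ∪
      ((S.image g) ∪ (S.image fun p => (g p)⁻¹)), ?_, ?_⟩
    · have h1 : (Finset.univ.image (ln a b)).card ≤ 4 := by
        simpa using Finset.card_image_le (s := (Finset.univ : Finset (Fin 4))) (f := ln a b)
      have h2 : (Finset.univ.image fun n => (ln a b n)⁻¹).card ≤ 4 := by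
        simpa using Finset.card_image_le (s := (Finset.univ : Finset (Fin 4)))
          (f := fun n => (ln a b n)⁻¹)
      have h3 : (S.image g).card ≤ 6 := hS ▸ Finset.card_image_le
      have h4 : (S.image fun p => (g p)⁻¹).card ≤ 6 := hS ▸ Finset.card_image_le
      refine (Finset.card_union_le _ _).trans ?_
      have h5 := Finset.card_union_le (Finset.univ.image (ln a b))
        (Finset.univ.image fun n => (ln a b n)⁻¹)
      have h6 := Finset.card_union_le (S.image g) (S.image fun p => (g p)⁻¹)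
      omega
    · intro x hx
      by_cases hox : Off a b x
      · apply Finset.mem_union_right
        obtain ⟨i, j, hN⟩ := exists_Nb hL hx hox
        obtain ⟨p, q, hpq, hN'⟩ : ∃ p q, p < q ∧ Nb Adj a b x p q := by
          rcases lt_or_gt_of_ne hN.1 with h | h
          · exact ⟨i, j, h, hN⟩
          · exact ⟨j, i, h, hN.symm⟩
        have hex : ∃ c, O3 c ∧ Off a b c ∧ Nb Adj a b c p q := ⟨x, hx, hox, hN'⟩
        have hg : g (p, q) = Classical.choose hex := dif_pos hex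
        obtain ⟨hc1, hc2, hc3⟩ := Classical.choose_spec hex
        rw [← hg] at hc1 hc2 hc3
        have hmem : (p, q) ∈ S := Finset.mem_filter.mpr ⟨Finset.mem_univ _, hpq⟩
        rcases step2 hL hx hc1 hox hc2 hN' hc3 with h | h
        · exact Finset.mem_union_left _ (Finset.mem_image.mpr ⟨(p, q), hmem, h.symm⟩)
        · exact Finset.mem_union_right _ (Finset.mem_image.mpr ⟨(p, q), hmem, h.symm⟩)
      · apply Finset.mem_union_left
        obtain ⟨n, h | h⟩ := hdich x hox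
        · exact Finset.mem_union_left _ (Finset.mem_image.mpr ⟨n, Finset.mem_univ _, h.symm⟩)
        · exact Finset.mem_union_right _ (Finset.mem_image.mpr ⟨n, Finset.mem_univ _, h.symm⟩)
  · by_cases hex : ∃ c, O3 c ∧ Off a b c
    · obtain ⟨c, hc, hoc⟩ := hex
      have hmono : Subgroup.closure ({a, b} : Set G) ≤ Subgroup.closure {a, b, c} := by
        apply Subgroup.closure_mono
        intro y hy
        rcases hy with rfl | hy
        · exact Set.mem_insert _ _
        · rw [Set.mem_singleton_iff] at hy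
          subst hy
          exact Set.mem_insert_of_mem _ (Set.mem_insert _ _)
      have hcm : c ∈ Subgroup.closure ({a, b, c} : Set G) := Subgroup.subset_closure (by simp)
      refine ⟨c, hc, fun x hx => ?_⟩
      by_cases hox : Off a b x
      · obtain ⟨i, j, hNc⟩ := exists_Nb hL hc hoc
        obtain ⟨p, q, hNx⟩ := exists_Nb hL hx hox
        obtain ⟨t, ht, hot, hNt⟩ := move2 hL hc hoc hNc p q hNx.1
        have htm := hmono ht
        have h1 : t * c * t⁻¹ ∈ Subgroup.closure ({a, b, c} : Set G) :=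
          mul_mem (mul_mem htm hcm) (inv_mem htm)
        rcases step2 hL hx (O3_conj hc t) hox hot hNx hNt with h | h
        · rw [h]; exact h1
        · rw [h]; exact inv_mem h1
      · obtain ⟨n, h | h⟩ := hdich x hox
        · rw [h]; exact hmono (ln_mem a b n)
        · rw [h]; exact inv_mem (hmono (ln_mem a b n))
    · push Not at hex
      refine ⟨a, ha, fun x hx => ?_⟩
      have hmono : Subgroup.closure ({a, b} : Set G) ≤ Subgroup.closure {a, b, a} := by
        apply Subgroup.closure_mono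
        intro y hy
        rcases hy with rfl | hy
        · exact Set.mem_insert _ _
        · rw [Set.mem_singleton_iff] at hy
          subst hy
          exact Set.mem_insert_of_mem _ (Set.mem_insert _ _)
      obtain ⟨n, h | h⟩ := hdich x (hex x hx)
      · rw [h]; exact hmono (ln_mem a b n)
      · rw [h]; exact inv_mem (hmono (ln_mem a b n))

end Pool.Agent.Helper45.ZS
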