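import Mathlib
import Pool.Agent.Helper82.ZS.Fr

/-!
# Groups with at most one subgroup of order three are solvable
-/

set_option autoImplicit false

namespace Pool.Agent.Helper45.ZS

open Pool.Agent.Helper82.EB Pool.Agent.Helper82.ZS

lemma UI_subgroup {G : Type*} [Group G] (hU : UI G) (K : Subgroup G) : UI K := by
  intro u v hu hu1 hv hv1
  apply Subtype.ext
  refine hU _ _ ?_ ?_ ?_ ?_
  · simpa using congrArg Subtype.val hu
  · intro h; exact hu1 (Subtype.ext h)
  · simpa using congrArg Subtype.val hv
  · intro h; exact hv1 (Subtype.ext h)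

lemma solvable_of_index_two {G : Type*} [Group G] (H : Subgroup G) (hi : H.index = 2)
    (hs : Group.IsSolvable H) : Group.IsSolvable G := by
  haveI : H.Normal := Subgroup.normal_of_index_eq_two hi
  haveI : Fact (Nat.Prime 2) := ⟨Nat.prime_two⟩
  have hc : Nat.card (G ⧸ H) = 2 := hi
  haveI : IsCyclic (G ⧸ H) := isCyclic_of_prime_card hc
  refine (Group.isSolvable_iff_subgroup_quotient H).mpr ⟨hs, ?_⟩
  refine Group.isSolvable_of_comm (fun a b => ?_)
  obtain ⟨g, hg⟩ := IsCyclic.exists_generator (α := G ⧸ H)
  obtain ⟨m, rfl⟩ := hg a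
  obtain ⟨n, rfl⟩ := hg b
  exact ((Commute.refl g).zpow_zpow m n).eq

lemma card_lt_of_ne_top {G : Type*} [Group G] [Finite G] {H : Subgroup G} (h : H ≠ ⊤) :
    Nat.card H < Nat.card G := by
  refine lt_of_le_of_ne (Subgroup.card_le_card_group H) (fun h1 => h ?_)
  exact (Subgroup.card_eq_iff_eq_top H).mp h1

/-- the Sylow `p`-subgroups for odd `p` are cyclic -/
lemma cyclic_of_odd {G : Type*} [Group G] [Finite G] (hAC : AC G) (p : ℕ) (hp : p.Prime)
    (hp2 : p ≠ 2) (P : Sylow p G) : IsCyclic P := by
  haveI := Fact.mk hp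
  by_contra hnc
  obtain ⟨i, hi, x, hx, hq⟩ := quat_of_noncyclic hAC p P.1 P.2 hnc
  obtain ⟨k, hk⟩ := (IsPGroup.iff_orderOf.mp P.2) ⟨i, hi⟩
  rw [Subgroup.orderOf_mk] at hk
  have h4 : orderOf i ∣ 4 := orderOf_dvd_of_pow_eq_one hq.2.1
  rw [hk] at h4
  have hk0 : k = 0 := by
    by_contra hk0
    have h3 : p ∣ 2 ^ 2 := (dvd_pow_self p hk0).trans h4
    exact hp2 ((Nat.prime_dvd_prime_iff_eq hp Nat.prime_two).mp (hp.dvd_of_dvd_pow h3))
  rw [hk0, pow_zero, orderOf_eq_one_iff] at hk
  exact hq.1 (by rw [hk, one_pow])

/-- (G3) -/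
theorem s_G3 (h1 : S_A1) (h2 : S_A2) (h4 : S_A4) (hB : S_B) : S_G3 := by
  have main : ∀ (n : ℕ) (G : Type) [Group G] [Finite G], Nat.card G = n → AC G → UI G →
      (∀ x y : G, x ^ 3 = 1 → x ≠ 1 → y ^ 3 = 1 → y ≠ 1 → y = x ∨ y = x⁻¹) →
      Group.IsSolvable G := by
    intro n
    induction n using Nat.strong_induction_on with
    | _ n ih =>
    intro G _ _ hcard hAC hUI h3
    have hsub : ∀ H : Subgroup G, H ≠ ⊤ → Group.IsSolvable H := by
      intro H hH
      refine ih _ (hcard ▸ card_lt_of_ne_top hH) H rfl (hAC.subgroup H) (UI_subgroup hUI H) ?_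
      intro x y hx hx1 hy hy1
      have := h3 x y (by simpa using congrArg Subtype.val hx)
        (fun h => hx1 (Subtype.ext h)) (by simpa using congrArg Subtype.val hy)
        (fun h => hy1 (Subtype.ext h))
      rcases this with h | h
      · exact Or.inl (Subtype.ext h)
      · exact Or.inr (Subtype.ext h)
    by_cases hs : ∃ s : G, s ^ 3 = 1 ∧ s ≠ 1
    · obtain ⟨s, hs3, hs1⟩ := hs
      have hconj : ∀ g : G, g * s * g⁻¹ = s ∨ g * s * g⁻¹ = s⁻¹ := by
        intro g
        refine h3 s (g * s * g⁻¹) hs3 hs1 ?_ ?_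
        · rw [conj_pow, hs3, mul_one, mul_inv_cancel]
        · intro h
          apply hs1
          have h5 : s = g⁻¹ * (g * s * g⁻¹) * g := by group
          rw [h5, h]; group
      by_cases hc : ∀ g : G, g * s = s * g
      · obtain ⟨N, hN, hNt, hNs⟩ := hB G hAC s hs3 hs1 hc
        exact (Group.isSolvable_iff_subgroup_quotient N).mpr ⟨hsub N hNt, hNs⟩
      · push Not at hc
        obtain ⟨a, ha⟩ := hc
        have hmem : ∀ g : G, g ∈ Subgroup.centralizer {s} ↔ g * s * g⁻¹ = s := by
          intro g
          rw [Subgroup.mem_centralizer_singleton_iff]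
          constructor
          · intro h; rw [h, mul_inv_cancel_right]
          · intro h; rw [mul_inv_eq_iff_eq_mul] at h; exact h
        have hss : s⁻¹ ≠ s := by
          intro h
          apply hs1
          have h5 : s ^ 2 = 1 := by rw [pow_two]; nth_rw 1 [← h]; exact inv_mul_cancel s
          calc s = s ^ 3 * (s ^ 2)⁻¹ := by group
            _ = 1 := by rw [hs3, h5, inv_one, mul_one]
        have hainv : a * s * a⁻¹ = s⁻¹ := by
          rcases hconj a with h | h
          · exfalso; rw [mul_inv_eq_iff_eq_mul] at h; exact ha h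
          · exact h
        have hidx : (Subgroup.centralizer {s}).index = 2 := by
          rw [Subgroup.index_eq_two_iff]
          refine ⟨a, fun b => ?_⟩
          have hba : b * a * s * (b * a)⁻¹ = (b * s * b⁻¹)⁻¹ := by
            calc b * a * s * (b * a)⁻¹ = b * (a * s * a⁻¹) * b⁻¹ := by group
              _ = b * s⁻¹ * b⁻¹ := by rw [hainv]
              _ = (b * s * b⁻¹)⁻¹ := by group
          rw [hmem, hmem, hba]
          rcases hconj b with h | h
          · right
            rw [h]
            exact ⟨rfl, hss⟩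
          · left
            rw [h, inv_inv]
            exact ⟨rfl, hss⟩
        refine solvable_of_index_two _ hidx (hsub _ ?_)
        intro h
        rw [h, Subgroup.index_top] at hidx
        exact absurd hidx (by norm_num)
    · push Not at hs
      haveI : Fact (Nat.Prime 2) := ⟨Nat.prime_two⟩
      obtain ⟨P⟩ : Nonempty (Sylow 2 G) := inferInstance
      by_cases hP : IsCyclic P
      · haveI : IsZGroup G := by
          refine ⟨fun p hp Q => ?_⟩
          by_cases hp2 : p = 2
          · subst hp2
            obtain ⟨g, hg⟩ := MulAction.exists_smul_eq G P Q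
            rw [← hg]
            exact isCyclic_of_surjective (P.equivSMul g) (P.equivSMul g).surjective
          · exact cyclic_of_odd hAC p hp hp2 Q
        infer_instance
      · obtain ⟨y, C, hy2, hy4, hyC, hCc, hCi, hCs⟩ := h1 P P.2 (hAC.subgroup P.1)
          (UI_subgroup hUI P.1) hP
        have hCmap : ∀ s : P, (s : G) ∈ C.map P.1.subtype ↔ s ∈ C := by
          intro s
          constructor
          · rintro ⟨t, ht, hts⟩
            have : t = s := Subtype.ext hts
            exact this ▸ ht
          · intro h; exact ⟨s, h, rfl⟩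
        have hCle : C.map P.1.subtype ≤ P.1 := by
          rintro _ ⟨t, _, rfl⟩; exact t.2
        have hyG2 : (y : G) ^ 2 ≠ 1 := by
          intro h; exact hy2 (Subtype.ext (by simpa using h))
        have hyG4 : (y : G) ^ 4 = 1 := by simpa using congrArg Subtype.val hy4
        have hrel : (C.map P.1.subtype).relIndex P.1 = 2 := by
          rw [Subgroup.relIndex, Subgroup.subgroupOf,
            Subgroup.comap_map_eq_self_of_injective P.1.subtype_injective, hCi]
        have hcyc : IsCyclic (C.map P.1.subtype) := by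
          have e : C ≃* C.map P.1.subtype :=
            C.equivMapOfInjective P.1.subtype P.1.subtype_injective
          exact isCyclic_of_surjective e e.surjective
        obtain ⟨s, hsP, hsC, hsg⟩ := h4 G hAC hUI
          (fun x hx => by by_contra hx1; exact (hs x hx) |> fun h => hx1 h)
          P (y : G) (C.map P.1.subtype) hCle ((hCmap y).mpr hyC) hyG2 hyG4 hcyc hrel
          (by
            intro s hsP hsC
            have hsC' : (⟨s, hsP⟩ : P) ∉ C := fun h => hsC ((hCmap ⟨s, hsP⟩).mpr h)
            obtain ⟨ha, hb⟩ := hCs ⟨s, hsP⟩ hsC'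
            refine ⟨by simpa using congrArg Subtype.val ha, ?_⟩
            rintro _ ⟨c, hc, rfl⟩
            simpa using congrArg Subtype.val (hb c hc))
        have hs2 : s ^ 2 = (y : G) ^ 2 := by
          have hsC' : (⟨s, hsP⟩ : P) ∉ C := fun h => hsC ((hCmap ⟨s, hsP⟩).mpr h)
          simpa using congrArg Subtype.val (hCs ⟨s, hsP⟩ hsC').1
        have hz : ((y : G) ^ 2) ^ 2 = 1 := by rw [← pow_mul]; exact hyG4
        have hodd : Odd P.1.index := by
          rw [← Nat.not_even_iff_odd, even_iff_two_dvd]
          exact P.not_dvd_index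
        have hindex : (C.map P.1.subtype).index = 2 * P.1.index := by
          rw [← Subgroup.relIndex_mul_index hCle, hrel]
        obtain ⟨H, hH⟩ := h2 G (C.map P.1.subtype) s P.1.index hindex hodd hsg (by
          intro g
          have h5 := hUI.central hz hyG2 g
          have h6 : g⁻¹ * s ^ 2 * g = (y : G) ^ 2 := by
            rw [hs2, mul_assoc, ← h5, inv_mul_cancel_left]
          rw [h6]
          exact Subgroup.pow_mem _ ((hCmap y).mpr hyC) 2)
        refine solvable_of_index_two H hH (hsub H ?_)
        intro h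
        rw [h, Subgroup.index_top] at hH
        exact absurd hH (by norm_num)
  intro G _ _ hAC hUI h3
  exact main _ G rfl hAC hUI h3

end Pool.Agent.Helper45.ZS
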